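import Mathlib
import Pool.Agent.H902R3.XI.Stmts

open Complex MeasureTheory Filter Topology Set Metric
open scoped Real ENNReal

namespace Pool.Agent.H385R3.XI

open Pool.Agent.H902R3.XI

/-- `e^{a u} exp(-π e^{2u})` -/
noncomputable def hh (a : ℂ) (u : ℝ) : ℂ := cexp (a * u) * cexp (-(π * (Real.exp (2 * u) : ℝ)))

lemma image_exp : (fun u : ℝ => Real.exp (2 * u)) '' univ = Ioi 0 := by
  ext x
  simp only [mem_image, mem_univ, true_and, mem_Ioi]
  constructor
  · rintro ⟨u, rfl⟩; exact Real.exp_pos _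
  · intro hx
    refine ⟨Real.log x / 2, ?_⟩
    rw [mul_div_cancel₀ _ (two_ne_zero), Real.exp_log hx]

lemma deriv_exp2 (x : ℝ) : HasDerivWithinAt (fun u : ℝ => Real.exp (2 * u)) (2 * Real.exp (2 * x))
    univ x := by
  have h : HasDerivAt (fun u : ℝ => Real.exp (2 * u)) (Real.exp (2 * x) * (2 * 1)) x :=
    ((hasDerivAt_id x).const_mul 2).exp
  rw [mul_one, mul_comm] at h
  exact h.hasDerivWithinAt

lemma inj_exp2 : InjOn (fun u : ℝ => Real.exp (2 * u)) univ := by
  intro x _ y _ h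
  have := Real.exp_injective h
  linarith

lemma transf (a : ℂ) (u : ℝ) :
    |2 * Real.exp (2 * u)| • (((Real.exp (2 * u) : ℝ) : ℂ) ^ (a / 2 - 1) *
      cexp (-(π * ((Real.exp (2 * u) : ℝ) : ℂ)))) = 2 * hh a u := by
  rw [abs_of_pos (by positivity), hh]
  have h1 : ((Real.exp (2 * u) : ℝ) : ℂ) ^ (a / 2 - 1) = cexp (2 * u * (a / 2 - 1)) := by
    rw [cpow_def_of_ne_zero (by exact_mod_cast (Real.exp_pos _).ne'), ← ofReal_log (Real.exp_pos _).le,
      Real.log_exp]
    push_cast; ring_nf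
  have h2 : cexp (a * u) = cexp (2 * u) * cexp (2 * u * (a / 2 - 1)) := by
    rw [← Complex.exp_add]; ring_nf
  rw [h1, h2, real_smul]
  push_cast
  ring

lemma base_integrable (a : ℂ) (ha : 0 < a.re) :
    IntegrableOn (fun x : ℝ => (x : ℂ) ^ (a / 2 - 1) * cexp (-(π * (x : ℂ)))) (Ioi 0) := by
  have h1 : IntegrableOn (fun x : ℝ => x ^ (a.re / 2 - 1) * Real.exp (-π * x ^ (1 : ℝ))) (Ioi 0) :=
    integrableOn_rpow_mul_exp_neg_mul_rpow (by linarith) one_pos Real.pi_pos
  refine (integrable_norm_iff ?_).1 (h1.congr_fun ?_ measurableSet_Ioi)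
  · refine ContinuousOn.aestronglyMeasurable ?_ measurableSet_Ioi
    refine ContinuousOn.mul ?_ (by fun_prop)
    intro x hx
    refine ContinuousAt.continuousWithinAt ?_
    refine ContinuousAt.cpow (by fun_prop) (by fun_prop) ?_
    left; simpa using hx
  · intro x hx
    simp only [norm_mul]
    rw [norm_cpow_eq_rpow_re_of_pos hx, norm_exp]
    simp

lemma hh_integrable (a : ℂ) (ha : 0 < a.re) : Integrable (hh a) := by
  have h := (integrableOn_image_iff_integrableOn_abs_deriv_smul MeasurableSet.univ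
    (fun x _ => deriv_exp2 x) inj_exp2
    (fun x : ℝ => (x : ℂ) ^ (a / 2 - 1) * cexp (-(π * (x : ℂ))))).1
    (by rw [image_exp]; exact base_integrable a ha)
  simp only [transf] at h
  rw [integrableOn_univ] at h
  have h2 := h.const_mul (1 / 2 : ℂ)
  refine h2.congr (Eventually.of_forall fun u => ?_)
  simp only; ring

lemma hh_integral (a : ℂ) (ha : 0 < a.re) :
    ∫ u, hh a u = (1 / 2) * ((1 / (π : ℂ)) ^ (a / 2) * Gamma (a / 2)) := by
  have h := integral_image_eq_integral_abs_deriv_smul MeasurableSet.univ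
    (fun x _ => deriv_exp2 x) inj_exp2
    (fun x : ℝ => (x : ℂ) ^ (a / 2 - 1) * cexp (-(π * (x : ℂ))))
  simp only [transf] at h
  rw [image_exp, integral_cpow_mul_exp_neg_mul_Ioi (by simpa using ha) (by simpa using Real.pi_pos),
    setIntegral_univ, integral_const_mul] at h
  rw [h]; ring

lemma phi_eq (z : ℂ) (u : ℝ) : ((phi u : ℝ) : ℂ) * cexp ((z - 1 / 2) * u) =
    4 * π ^ 2 * hh (z + 4) u - 6 * π * hh (z + 2) u := by
  have h1 : cexp ((z + 4) * u) = cexp (9 * u / 2) * cexp ((z - 1 / 2) * u) := by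
    rw [← Complex.exp_add]; ring_nf
  have h2 : cexp ((z + 2) * u) = cexp (5 * u / 2) * cexp ((z - 1 / 2) * u) := by
    rw [← Complex.exp_add]; ring_nf
  rw [hh, hh, h1, h2, phi]
  push_cast
  ring_nf

lemma phi_integrable (z : ℂ) (hz : 0 < z.re) :
    Integrable (fun u : ℝ => ((phi u : ℝ) : ℂ) * cexp ((z - 1 / 2) * u)) := by
  simp only [phi_eq]
  exact ((hh_integrable (z + 4) (by simp; linarith)).const_mul _).sub
    ((hh_integrable (z + 2) (by simp; linarith)).const_mul _)

lemma phi_integral (z : ℂ) (hz : 0 < z.re) :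
    ∫ u : ℝ, ((phi u : ℝ) : ℂ) * cexp ((z - 1 / 2) * u) = g z := by
  simp only [phi_eq]
  rw [integral_sub ((hh_integrable (z + 4) (by simp; linarith)).const_mul _)
    ((hh_integrable (z + 2) (by simp; linarith)).const_mul _), integral_const_mul,
    integral_const_mul, hh_integral _ (by simp; linarith), hh_integral _ (by simp; linarith), g]
  have hpi : (π : ℂ) ≠ 0 := by exact_mod_cast Real.pi_ne_zero
  have harg : (π : ℂ).arg ≠ π := by
    rw [arg_ofReal_of_nonneg Real.pi_pos.le]; exact Real.pi_ne_zero.symm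
  have hz0 : z ≠ 0 := by rintro rfl; simp at hz
  have e1 : (1 / (π : ℂ)) ^ ((z + 4) / 2) = (π : ℂ) ^ (-z / 2) * (π : ℂ)⁻¹ ^ 2 := by
    rw [one_div, inv_cpow _ _ harg, ← cpow_neg,
      show -((z + 4) / 2) = -z / 2 + ((-2 : ℤ) : ℂ) by push_cast; ring, cpow_add _ _ hpi,
      cpow_intCast]
    rw [zpow_neg, inv_pow]; rfl
  have e2 : (1 / (π : ℂ)) ^ ((z + 2) / 2) = (π : ℂ) ^ (-z / 2) * (π : ℂ)⁻¹ := by
    rw [one_div, inv_cpow _ _ harg, ← cpow_neg,
      show -((z + 2) / 2) = -z / 2 + ((-1 : ℤ) : ℂ) by push_cast; ring, cpow_add _ _ hpi,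
      cpow_intCast]
    rw [zpow_neg, zpow_one]
  have e3 : Gamma ((z + 2) / 2) = z / 2 * Gamma (z / 2) := by
    rw [show (z + 2) / 2 = z / 2 + 1 by ring, Gamma_add_one _ (div_ne_zero hz0 two_ne_zero)]
  have e4 : Gamma ((z + 4) / 2) = (z + 2) / 2 * (z / 2 * Gamma (z / 2)) := by
    rw [show (z + 4) / 2 = (z + 2) / 2 + 1 by ring, Gamma_add_one, e3]
    intro h
    have : z = -2 := by linear_combination 2 * h
    rw [this] at hz; norm_num at hz
  rw [e1, e2, e3, e4]
  field_simp
  ring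

lemma phi_continuous : Continuous phi := by
  unfold phi
  fun_prop

/-- Gaussian integral -/
lemma gauss (τ : ℝ) (hτ : 0 < τ) (c t : ℝ) :
    ∫ v : ℝ, cexp ((c + v * I) ^ 2 / (4 * τ)) * cexp ((c + v * I) * t) =
      (((4 * π * τ) ^ (1 / 2 : ℝ) : ℝ) : ℂ) * cexp (-τ * t ^ 2) := by
  have hτc : (τ : ℂ) ≠ 0 := by exact_mod_cast hτ.ne'
  have hb : (-(1 / (4 * τ)) : ℂ).re < 0 := by
    rw [show (-(1 / (4 * τ)) : ℂ) = ((-(1 / (4 * τ)) : ℝ) : ℂ) by push_cast; ring, ofReal_re]
    have : 0 < 1 / (4 * τ) := by positivity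
    linarith
  have h := integral_cexp_quadratic hb (c * I / (2 * τ) + I * t) (c ^ 2 / (4 * τ) + c * t)
  have e1 : ∀ v : ℝ, cexp ((c + v * I) ^ 2 / (4 * τ)) * cexp ((c + v * I) * t) =
      cexp (-(1 / (4 * τ)) * v ^ 2 + (c * I / (2 * τ) + I * t) * v + (c ^ 2 / (4 * τ) + c * t)) := by
    intro v
    rw [← Complex.exp_add]
    congr 1
    have : (c + v * I) ^ 2 = c ^ 2 + 2 * c * v * I - (v : ℂ) ^ 2 := by
      linear_combination (v : ℂ) ^ 2 * I_sq
    rw [this]
    field_simp
    ring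
  simp only [e1]
  rw [h]
  congr 1
  · rw [ofReal_cpow (by positivity)]
    congr 1
    · push_cast; field_simp
    · push_cast; rfl
  · congr 1
    have : (c * I / (2 * τ) + I * t) ^ 2 = -(c / (2 * τ) + t : ℂ) ^ 2 := by
      linear_combination (c / (2 * τ) + t : ℂ) ^ 2 * I_sq
    rw [this]
    field_simp
    ring

theorem taskA2 : TaskA2 := by
  intro τ hτ s n c hs
  have hτc : (τ : ℂ) ≠ 0 := by exact_mod_cast hτ.ne'
  set l : ℝ := ell n with hl
  -- the double integrand
  let F : ℝ × ℝ → ℂ := fun p => cexp ((c + p.1 * I) ^ 2 / (4 * τ)) *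
    ((((Real.exp (-l / 2) * phi (p.2 + l) : ℝ) : ℂ) * cexp ((s - 1 / 2) * p.2)) *
      cexp ((c + p.1 * I) * p.2))
  -- the integrable factor in `t`
  have hG : Integrable (fun t : ℝ => (((Real.exp (-l / 2) * phi (t + l) : ℝ) : ℂ) *
      cexp ((s - 1 / 2) * t)) * cexp (c * t)) := by
    have h1 := (phi_integrable (s + c) (by simpa using hs)).comp_add_right l
    have h2 := h1.const_mul (cexp (-(l : ℂ) / 2) * cexp (-(s + c - 1 / 2) * l))
    refine h2.congr (Eventually.of_forall fun t => ?_)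
    have e : cexp ((s + c - 1 / 2) * ((t + l : ℝ) : ℂ)) =
        cexp ((s + c - 1 / 2) * l) * (cexp ((s - 1 / 2) * t) * cexp (c * t)) := by
      rw [← Complex.exp_add, ← Complex.exp_add]; push_cast; ring_nf
    have e' : cexp (-(s + c - 1 / 2) * l) * cexp ((s + c - 1 / 2) * l) = 1 := by
      rw [← Complex.exp_add]; ring_nf; exact Complex.exp_zero
    simp only
    rw [e]
    push_cast
    linear_combination (cexp (-(l : ℂ) / 2) * (phi (t + l) : ℂ) * (cexp ((s - 1 / 2) * t) *
      cexp (c * t))) * e'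
  have hgau : Integrable (fun v : ℝ => cexp ((c + v * I) ^ 2 / (4 * τ))) := by
    have hb : (-(1 / (4 * τ)) : ℂ).re < 0 := by
      rw [show (-(1 / (4 * τ)) : ℂ) = ((-(1 / (4 * τ)) : ℝ) : ℂ) by push_cast; ring, ofReal_re]
      have : 0 < 1 / (4 * τ) := by positivity
      linarith
    have h := GaussianFourier.integrable_cexp_neg_mul_sq_add_real_mul_I (b := 1 / (4 * τ)) (by
      rw [show ((1 / (4 * τ)) : ℂ) = (((1 / (4 * τ)) : ℝ) : ℂ) by push_cast; ring, ofReal_re]
      positivity) (-c)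
    refine h.congr (Eventually.of_forall fun v => ?_)
    simp only
    congr 1
    have : (c + v * I) ^ 2 = c ^ 2 + 2 * c * v * I - (v : ℂ) ^ 2 := by
      linear_combination (v : ℂ) ^ 2 * I_sq
    have h3 : ((v : ℂ) + ((-c : ℝ) : ℂ) * I) ^ 2 = - (c + v * I) ^ 2 := by
      push_cast
      linear_combination ((v : ℂ) ^ 2 + (c : ℂ) ^ 2) * I_sq
    rw [h3]
    field_simp
  have hF : Integrable F := by
    have h1 := hgau.mul_prod hG
    refine h1.mono ?_ (Eventually.of_forall fun p => ?_)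
    · have hphi := phi_continuous
      refine Continuous.aestronglyMeasurable ?_
      simp only [F]
      fun_prop
    · simp only [F, norm_mul]
      have : ‖cexp ((c + p.1 * I) * p.2)‖ = ‖cexp ((c : ℂ) * p.2)‖ := by
        rw [norm_exp, norm_exp]; simp
      rw [this]
  -- the inner integral in `t`
  have hinner : ∀ v : ℝ, ∫ t : ℝ, F (v, t) =
      g (s + (c + v * I)) * cexp (-(s + (c + v * I)) * l) * cexp ((c + v * I) ^ 2 / (4 * τ)) := by
    intro v
    simp only [F]
    rw [integral_const_mul]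
    have h1 := phi_integral (s + (c + v * I)) (by simpa using hs)
    have h1' := (integral_add_right_eq_self
      (fun u : ℝ => ((phi u : ℝ) : ℂ) * cexp ((s + (c + v * I) - 1 / 2) * u)) l).trans h1
    rw [← h1', mul_comm]
    congr 1
    rw [← integral_mul_const]
    refine integral_congr_ae (Eventually.of_forall fun t => ?_)
    simp only
    have e : cexp ((s + (c + v * I) - 1 / 2) * ((t + l : ℝ) : ℂ)) * cexp (-(s + (c + v * I)) * l) =
        cexp (-(l : ℂ) / 2) * (cexp ((s - 1 / 2) * t) * cexp ((c + v * I) * t)) := by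
      rw [← Complex.exp_add, ← Complex.exp_add, ← Complex.exp_add]; push_cast; ring_nf
    push_cast at e ⊢
    linear_combination (-(phi (t + l) : ℂ)) * e
  refine ⟨?_, ?_⟩
  · have h := hF.integral_prod_left
    refine h.congr (Eventually.of_forall fun v => ?_)
    exact hinner v
  · have hswap := integral_integral_swap (f := fun v t => F (v, t)) hF
    simp only [hinner] at hswap
    rw [hswap]
    have h2 : ∀ t : ℝ, ∫ v : ℝ, F (v, t) = (((4 * π * τ) ^ (1 / 2 : ℝ) : ℝ) : ℂ) *
        (((Real.exp (-l / 2) * phi (t + l) * Real.exp (-τ * t ^ 2) : ℝ) : ℂ) *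
          cexp ((s - 1 / 2) * t)) := by
      intro t
      have h3 := gauss τ hτ c t
      have h4 : ∀ v : ℝ, F (v, t) = (((Real.exp (-l / 2) * phi (t + l) : ℝ) : ℂ) *
          cexp ((s - 1 / 2) * t)) * (cexp ((c + v * I) ^ 2 / (4 * τ)) * cexp ((c + v * I) * t)) := by
        intro v; simp only [F]; ring
      simp only [h4]
      rw [integral_const_mul, h3]
      push_cast
      ring
    simp only [h2]
    rw [integral_const_mul, ← mul_assoc, ← ofReal_mul, ← Real.rpow_add (by positivity)]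
    norm_num
    rw [Tm]
    refine integral_congr_ae (Eventually.of_forall fun t => ?_)
    simp only [← hl]
    push_cast
    ring

end Pool.Agent.H385R3.XI
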